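import Pool.Agent.K3h92.Hz.Fin
import Pool.Agent.K3h15.Hz.Opp
import Pool.Agent.K3h15.Hz.Lead
import Pool.Agent.K3h48.Hz.TC
import Pool.Agent.K3h35.Hz.Sw
import Pool.Agent.K3h76.Hz.Pot

/-!
# The radius of the Hurwitz graph of type B

The hyperoctahedral group `B_n` is the group of the permutations `f` of `ℤ` with `f (-x) = -f x`
which fix every `x` with `|x| > n` (`IsB`). For every `n ≥ 2` and every Coxeter element `c` of
`B_n` (product of the simple reflections, each taken once, in some order, `IsCox`) the Hurwitz
graph of the reduced words of `c` over the reflections (`hurwitz`) has radius `n(n-1)/2 + 1`.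

Upper bound. Centre `s_0, s_1, ..., s_(n-1)`. A word is sorted by pushing the first letter which
moves `n` to the end. This takes at most `n - 1` moves unless the first letter of the word is the
sign change `[n]`; in this case the other letters form a word of a cycle of type `A_(n-1)`, which is
sorted in `(n-1)(n-2)/2` moves into the word of the path `-n, 1, 2, ..., n-1`, and `n` more moves
lead to the centre.

Lower bound. A reduced word is mapped to the complete flag of the spans of the roots of its first
letters; a Hurwitz move changes at most one subspace. Let `v` be a word. There is a word `w` whose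
flag is opposite to the flag of `v` and such that the sign change `[a]` of `w` is not at the mirror
place of the one of `v`. The number of inversions of the labels of a word with respect to the flag
of `v`, plus one if the label of the sign change is not the one in `v`, changes by at most one in
a Hurwitz move; it is `0` for `v` and `n(n-1)/2 + 1` for `w`.
-/

set_option autoImplicit false

namespace Pool.Agent.Results.MP_1b5ef1_co.RadiusFormula

open Pool.Agent.K3h92.Hz

/-- For every `n ≥ 2` and every Coxeter element `c` of `B_n` the radius of the Hurwitz graph is
`binom(n,2) + 1`. -/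
theorem result : ∀ n : ℕ, 2 ≤ n → ∀ c : Equiv.Perm ℤ, IsCox n c →
    (hurwitz n c).radius = ((n.choose 2 + 1 : ℕ) : ℕ∞) :=
  main Pool.Agent.K3h15.Hz.lead (Pool.Agent.K3h15.Hz.opp Pool.Agent.K3h15.Hz.lead)
    Pool.Agent.K3h76.Hz.pot_thm Pool.Agent.K3h48.Hz.trans Pool.Agent.K3h48.Hz.conj
    (Pool.Agent.K3h35.Hz.one (Pool.Agent.K3h35.Hz.sw Pool.Agent.K3h48.Hz.trans))

end Pool.Agent.Results.MP_1b5ef1_co.RadiusFormula
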